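import Mathlib
import Pool.Agent.Helper99.MK.Ad

/-!
# Lehmer's problem and the additive dimension of the exponents

Let `F = ∑_{j < k} c_j X ^ e_j` be an integer polynomial with `k` nonzero coefficients.

**Theorem.** If `M(F) ≤ 1.27` then the exponents satisfy `m` linearly independent relations
`∑ h_j e_j = 0`, `∑ h_j = 0` of length `∑ |h_j| ≤ 10 ^ 37 k ^ 27`, where `2 ^ (k - 1 - m) ≤ k`; and
if `1 < M(F) ≤ 1.27` then even `2 ^ (k - 1 - m) < k`.

Call `k - 1 - m`, with the maximal number `m` of independent zero-sum relations of length at most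
`10 ^ 37 k ^ 27`, the additive dimension of the exponents (the exponents are an affine image of a set
of integer points of this dimension defined by relations of this length, and for `k` exponents
without such relations it is `k - 1`). Thus Lehmer's inequality, with the constant `1.27`, holds for all
the integer polynomials, reducible or not and with arbitrary coefficients and degree, whose
exponents have additive dimension at least `log k / log 2`. For the products
`(1 + X ^ {a_1}) ⋯ (1 + X ^ {a_d})` with rapidly growing `a_i`, of measure `1`, the additive dimension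
is `d = log k / log 2`.

Method. Let `U` be the smallest subspace of `ℝ ^ k` with `e, (1, …, 1) ∈ U` that contains all the
integer vectors at distance at most `ρ` from it, where `1 / ρ` is polynomial in `k`. The mean of
`log max (|∑_{j ∈ A} c_j e(x_j)|, δ)` over the torus of `U` is the logarithmic Mahler measure of
`F_A = ∑_{j ∈ A} c_j X ^ e_j`, for `A = {0, …, k - 1}`, and at least that for all `A`, up to a small error,
since the truncated logarithm has bounded variation along short segments. By Jensen's
inequality the mean decreases when `A` is replaced by the set of those `j ∈ A` for which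
`u_j` is minimal, `u ∈ U` (a face). Therefore `M(F_A) < 1.28` for all the iterated faces `A`, and by
Smyth's theorem `F_A` is reciprocal, so that each face `A` is symmetric, also for the
other vectors of `U` because the symmetry is expressed by relations of length `4`. A maximal chain of
faces has length `dim U - 1`, and each step at least doubles the number of points. If each step
exactly doubles it then `F` is a product of binomials `X ^ t ± 1` up to a monomial.
-/

set_option autoImplicit false

open Polynomial

namespace Pool.Agent.Helper99.Reserve.AdditiveDimension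

theorem result (k : ℕ) (hk : 1 ≤ k) (c : Fin k → ℤ) (hc : ∀ j, c j ≠ 0) (e : Fin k → ℕ)
    (he : Function.Injective e)
    (hM : ((∑ j, C (c j) * X ^ (e j) : ℤ[X]).map (Int.castRingHom ℂ)).mahlerMeasure ≤ 127 / 100) :
    ∃ (m : ℕ) (H : Fin m → Fin k → ℤ), LinearIndependent ℤ H ∧
      (∀ i, ∑ j, H i j = 0 ∧ ∑ j, H i j * (e j : ℤ) = 0 ∧ ∑ j, |H i j| ≤ 10 ^ 37 * (k : ℤ) ^ 27) ∧
      2 ^ (k - 1 - m) ≤ k ∧
      (1 < ((∑ j, C (c j) * X ^ (e j) : ℤ[X]).map (Int.castRingHom ℂ)).mahlerMeasure →
        2 ^ (k - 1 - m) < k) := by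
  obtain ⟨r, rfl⟩ : ∃ r, k = r + 1 := ⟨k - 1, by omega⟩
  have hlmM : Pool.Agent.H338R2.AS.lm (Pool.Agent.H338R2.AS.sp c e) =
      Real.log (((∑ j, C (c j) * X ^ (e j) : ℤ[X]).map (Int.castRingHom ℂ)).mahlerMeasure) :=
    logMahlerMeasure_eq_log_MahlerMeasure
  rcases Nat.eq_zero_or_pos r with h0 | hr
  · subst h0
    refine ⟨0, fun i => i.elim0, linearIndependent_empty_type, fun i => i.elim0, by norm_num, ?_⟩
    intro h1
    exfalso
    have h2 : (∑ j : Fin 1, C (c j) * X ^ (e j) : ℤ[X]) = C (c 0) * X ^ (e 0) := by simp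
    have h3 : ((∑ j : Fin (0 + 1), C (c j) * X ^ (e j) : ℤ[X]).map
        (Int.castRingHom ℂ)).mahlerMeasure = |(c 0 : ℝ)| := by
      rw [h2, Polynomial.map_mul, Polynomial.map_pow, map_X, mahlerMeasure_mul,
        Pool.Agent.Helper99.MK.mahler_X_pow, mul_one, Polynomial.map_C, mahlerMeasure_const,
        eq_intCast, Complex.norm_intCast]
    rw [h3] at h1 hM
    have h4 : ((1:ℤ) : ℝ) < ((|c 0| : ℤ) : ℝ) := by push_cast; exact h1
    have h5 : ((|c 0| : ℤ) : ℝ) < ((2:ℤ) : ℝ) := by push_cast; linarith
    have h6 : 1 < |c 0| := by exact_mod_cast h4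
    have h7 : |c 0| < 2 := by exact_mod_cast h5
    omega
  · have hne : (∑ j, C (c j) * X ^ (e j) : ℤ[X]) ≠ 0 := by
      intro h
      have h1 : (∑ j, C (c j) * X ^ (e j) : ℤ[X]).coeff (e 0) = c 0 := by
        rw [finsetSum_coeff, Finset.sum_eq_single 0]
        · rw [coeff_C_mul, coeff_X_pow_self, mul_one]
        · intro i _ hi
          rw [coeff_C_mul, coeff_X_pow, if_neg, mul_zero]
          intro h2
          exact hi (he h2.symm)
        · intro h2; exact absurd (Finset.mem_univ _) h2
      rw [h, coeff_zero] at h1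
      exact hc 0 h1.symm
    have hpos : 0 < ((∑ j, C (c j) * X ^ (e j) : ℤ[X]).map (Int.castRingHom ℂ)).mahlerMeasure :=
      Pool.Agent.H388SL.MM_pos hne
    obtain ⟨m, H, h1, h2, h3, h4⟩ := Pool.Agent.Helper99.MK.additive_dim hr c hc e he
      (by rw [hlmM]; exact Real.log_le_log hpos hM)
    refine ⟨m, H, h3, fun i => ⟨(h4 i).1, (h4 i).2.1, (h4 i).2.2.trans ?_⟩, ?_, ?_⟩
    · have hS : Pool.Agent.Helper99.MK.SS (r + 1) (1 / 200) = 102400000 * (r + 1) ^ 6 := by
        unfold Pool.Agent.Helper99.MK.SS
        have h5 : (2560 * (((r + 1 : ℕ) : ℝ)) ^ 6 / (1 / 200) ^ 2) =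
            ((102400000 * (r + 1) ^ 6 : ℕ) : ℝ) := by
          push_cast
          ring
        rw [h5, Nat.ceil_natCast]
      have h6 : Pool.Agent.Helper99.MK.mK (r + 1) (1 / 200) ≤ 10 ^ 37 * (r + 1) ^ 27 := by
        unfold Pool.Agent.Helper99.MK.mK
        rw [hS]
        have h7 : (r + 1) * (288 * (r + 1) * (102400000 * (r + 1) ^ 6) ^ 2) ^ 2 =
            (82944 * 102400000 ^ 4) * (r + 1) ^ 27 := by ring
        rw [h7]
        exact Nat.mul_le_mul_right _ (by norm_num)
      exact_mod_cast h6
    · have h5 : r + 1 - 1 - m = r - m := by omega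
      rw [h5]
      exact h1
    · intro h6
      have h5 : r + 1 - 1 - m = r - m := by omega
      rw [h5]
      apply h2
      rw [hlmM]
      exact Real.log_pos h6

end Pool.Agent.Helper99.Reserve.AdditiveDimension
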